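import Pool.Agent.Y920.EP.Stm

/-!
# Project EP: going up in a cyclic extension of degree `p`
-/

set_option autoImplicit false

namespace Pool.Agent.Y279.EP

open Pool.Agent.Y920.EP

/-- the general argument: `(1 - S)^p` is divisible by `p` if `S^p = 1` -/
theorem gen {M : Type} [AddCommGroup M] (S : AddMonoid.End M) (p : ℕ) (hp : p.Prime) (h2 : p ≠ 2)
    (hS : S ^ p = 1) (U : Set M)
    (hU : ∀ y ∈ U, ∃ d, ∃ b ∈ U, y = p • d + (b - S b)) : ∀ y ∈ U, ∃ w, y = p • w := by
  have key : ∀ k : ℕ, ∀ y ∈ U, ∃ d, ∃ b ∈ U, y = p • d + ((1 - S) ^ k) b := by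
    intro k
    induction k with
    | zero => intro y hy; exact ⟨0, y, hy, by simp⟩
    | succ k ih =>
      intro y hy
      obtain ⟨d, b, hb, e⟩ := ih y hy
      obtain ⟨d', b', hb', e'⟩ := hU b hb
      refine ⟨d + ((1 - S) ^ k) d', b', hb', ?_⟩
      have e3 : ((1 - S) ^ (k + 1)) b' = ((1 - S) ^ k) (b' - S b') := by
        rw [pow_succ]; rfl
      have e4 : ((1 - S) ^ k) b = p • ((1 - S) ^ k) d' + ((1 - S) ^ k) (b' - S b') := by
        rw [e', map_add, map_nsmul]
      rw [e3, e, e4, smul_add, add_assoc]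
  intro y hy
  obtain ⟨d, b, -, e⟩ := key p y hy
  obtain ⟨r, hr⟩ := Commute.exists_add_pow_prime_eq hp ((Commute.one_left S).neg_right)
  have hodd : Odd p := hp.odd_of_ne_two h2
  rw [one_pow, hodd.neg_pow, hS, add_neg_cancel, zero_add, mul_one, mul_assoc] at hr
  refine ⟨d + (-S * r) b, ?_⟩
  rw [e, sub_eq_add_neg, hr, smul_add]
  congr 1

section val
variable {L : Type} [Field L] {Γ : Type} [LinearOrderedCommGroupWithZero Γ] (v : Valuation L Γ)

theorem U_one {x : L} (hx : v (x - 1) < 1) : v x = 1 := by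
  have := Valuation.map_one_add_of_lt (v := v) hx
  rwa [add_sub_cancel] at this

theorem U_ne {x : L} (hx : v (x - 1) < 1) : x ≠ 0 := by
  rintro rfl
  have := U_one v hx
  rw [map_zero] at this
  exact zero_ne_one this

theorem U_mul {x y : L} (hx : v (x - 1) < 1) (hy : v (y - 1) < 1) : v (x * y - 1) < 1 := by
  have e : x * y - 1 = (x - 1) * y + (y - 1) := by ring
  rw [e]
  refine v.map_add_lt ?_ hy
  rw [map_mul, U_one v hy, mul_one]
  exact hx

theorem U_inv {x : L} (hx : v (x - 1) < 1) : v (x⁻¹ - 1) < 1 := by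
  have h0 := U_ne v hx
  have e : x⁻¹ - 1 = -((x - 1) * x⁻¹) := by field_simp; ring
  rw [e, Valuation.map_neg, map_mul, map_inv₀, U_one v hx, inv_one, mul_one]
  exact hx

theorem U_prod {ι : Type} (s : Finset ι) (f : ι → L) (h : ∀ i ∈ s, v (f i - 1) < 1) :
    v (∏ i ∈ s, f i - 1) < 1 := by
  classical
  induction s using Finset.induction_on with
  | empty => simp
  | insert a s ha ih =>
    rw [Finset.prod_insert ha]
    exact U_mul v (h a (Finset.mem_insert_self _ _))
      (ih fun i hi => h i (Finset.mem_insert_of_mem hi))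

/-- an approximate root of unity is near a root of unity -/
theorem near_root (p : ℕ) (hp : p.Prime) (ζ : L) (hζ : IsPrimitiveRoot ζ p) (x : L)
    (hx : v (x ^ p - 1) < 1) : ∃ z : L, z ^ p = 1 ∧ v (x * z⁻¹ - 1) < 1 := by
  have e := congrArg (Polynomial.eval x) (Polynomial.X_pow_sub_one_eq_prod hp.pos hζ)
  rw [Polynomial.eval_prod] at e
  simp only [Polynomial.eval_sub, Polynomial.eval_pow, Polynomial.eval_X, Polynomial.eval_one,
    Polynomial.eval_C] at e
  rw [e, map_prod] at hx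
  have : ∃ z ∈ Polynomial.nthRootsFinset p (1 : L), v (x - z) < 1 := by
    by_contra hcon
    push Not at hcon
    exact absurd (Finset.one_le_prod' hcon) (not_le.2 hx)
  obtain ⟨z, hz, hz'⟩ := this
  rw [Polynomial.mem_nthRootsFinset hp.pos] at hz
  refine ⟨z, hz, ?_⟩
  have hz0 : z ≠ 0 := by
    rintro rfl
    rw [zero_pow hp.ne_zero] at hz
    exact zero_ne_one hz
  have hvz : v z = 1 := by
    have : v z ^ p = 1 := by rw [← map_pow, hz, map_one]
    exact (pow_eq_one_iff.1 this).resolve_right hp.ne_zero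
  have e2 : x * z⁻¹ - 1 = (x - z) * z⁻¹ := by field_simp
  rw [e2, map_mul, map_inv₀, hvz, inv_one, mul_one]
  exact hz'

end val

section main
variable {F L : Type} [Field F] [Field L] [Algebra F L] {Γ : Type}
  [LinearOrderedCommGroupWithZero Γ] (v : Valuation L Γ)

/-- partial norms -/
noncomputable def PN (s : L ≃ₐ[F] L) (u : L) (j : ℕ) : L := ∏ i ∈ Finset.range j, (s ^ i) u

theorem PN_succ (s : L ≃ₐ[F] L) (u : L) (j : ℕ) : PN s u (j + 1) = u * s (PN s u j) := by
  unfold PN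
  rw [Finset.prod_range_succ', map_prod, mul_comm]
  congr 1
  refine Finset.prod_congr rfl fun i _ => ?_
  rw [pow_succ', AlgEquiv.mul_apply]

theorem PN_pow (s : L ≃ₐ[F] L) (hs : ∀ x, v x < 1 → v (s x) < 1) (u : L) (hu : v (u - 1) < 1)
    (i : ℕ) : v ((s ^ i) u - 1) < 1 := by
  induction i with
  | zero => simpa using hu
  | succ i ih =>
    have := hs _ ih
    rw [map_sub, map_one] at this
    rwa [pow_succ', AlgEquiv.mul_apply]

theorem PN_U (s : L ≃ₐ[F] L) (hs : ∀ x, v x < 1 → v (s x) < 1) (u : L) (hu : v (u - 1) < 1)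
    (j : ℕ) : v (PN s u j - 1) < 1 :=
  U_prod v _ _ fun i _ => PN_pow v s hs u hu i

/-- Hilbert's theorem 90 for one-units -/
theorem h90 (p : ℕ) (s : L ≃ₐ[F] L) (hs : ∀ x, v x < 1 → v (s x) < 1) (hvp : v (p : L) = 1)
    (u : L) (hu : v (u - 1) < 1) (hN : PN s u p = 1) :
    ∃ b : L, v (b - 1) < 1 ∧ u = b / s b := by
  have hp0 : (p : L) ≠ 0 := by
    intro h
    rw [h, map_zero] at hvp
    exact zero_ne_one hvp
  obtain ⟨b, hb⟩ : ∃ b : L, b = ∑ j ∈ Finset.range p, PN s u j := ⟨_, rfl⟩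
  have e1 : u * s b = b := by
    rw [hb, map_sum, Finset.mul_sum]
    have h1 := Finset.sum_range_succ' (fun j => PN s u j) p
    rw [Finset.sum_range_succ] at h1
    have h2 : PN s u 0 = 1 := by simp [PN]
    rw [hN, h2, add_left_inj] at h1
    rw [h1]
    exact Finset.sum_congr rfl fun j _ => (PN_succ s u j).symm
  have e2 : v (b - p) < 1 := by
    have : b - p = ∑ j ∈ Finset.range p, (PN s u j - 1) := by
      rw [Finset.sum_sub_distrib, ← hb]
      simp
    rw [this]
    exact v.map_sum_lt one_ne_zero fun j _ => PN_U v s hs u hu j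
  have e3 : v (b / p - 1) < 1 := by
    have : b / p - 1 = (b - p) / p := by field_simp
    rw [this, map_div₀, hvp, div_one]
    exact e2
  refine ⟨b / p, e3, ?_⟩
  have h3 := U_ne v e3
  have hsp : s (p : L) = p := map_natCast s p
  have hb0 : b ≠ 0 := by
    intro h
    rw [h, zero_div] at h3
    exact h3 rfl
  have hsb : s b ≠ 0 := by
    intro h
    rw [h, mul_zero] at e1
    exact hb0 e1.symm
  rw [map_div₀, hsp]
  field_simp
  exact e1

/-- one step -/
theorem step (p : ℕ) (hp : p.Prime) (ζ : F) (hζ : IsPrimitiveRoot ζ p) (s : L ≃ₐ[F] L)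
    (hs : ∀ x, v x < 1 → v (s x) < 1) (hsp : s ^ p = 1)
    (hfix : ∀ x : L, s x = x → ∃ f : F, algebraMap F L f = x) (hvp : v (p : L) = 1)
    (hF : ∀ f : F, v (algebraMap F L f - 1) < 1 → ∃ c : F, c ^ p = f)
    (y : L) (hy : v (y - 1) < 1) : ∃ d b : L, v (b - 1) < 1 ∧ y = d ^ p * (b / s b) := by
  have hn := PN_U v s hs y hy p
  have hfx : s (PN s y p) = PN s y p := by
    have h1 := PN_succ s y p
    have h2 : PN s y (p + 1) = PN s y p * y := by
      unfold PN
      rw [Finset.prod_range_succ, hsp]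
      rfl
    rw [h2, mul_comm] at h1
    exact (mul_left_cancel₀ (U_ne v hy) h1).symm
  obtain ⟨n, hn'⟩ := hfix _ hfx
  rw [← hn'] at hn
  obtain ⟨c₀, hc₀⟩ := hF n hn
  obtain ⟨z, hz, hz'⟩ := near_root (v.comap (algebraMap F L)) p hp ζ hζ c₀ (by
    rw [hc₀, Valuation.comap_apply, map_sub, map_one]
    exact hn)
  rw [Valuation.comap_apply, map_sub, map_one] at hz'
  obtain ⟨c, hc⟩ : ∃ c : F, c = c₀ * z⁻¹ := ⟨_, rfl⟩
  rw [← hc] at hz'
  have hcp : c ^ p = n := by
    rw [hc, mul_pow, inv_pow, hz, inv_one, mul_one, hc₀]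
  obtain ⟨e, he⟩ := hF c hz'
  have hc0 : algebraMap F L c ≠ 0 := U_ne v hz'
  have hnn : PN s y p ≠ 0 := by
    rw [← hn']
    exact U_ne v hn
  obtain ⟨b, hb, hb'⟩ := h90 v p s hs hvp (y * (algebraMap F L c)⁻¹) (U_mul v hy (U_inv v hz')) (by
    unfold PN
    have : ∀ i ∈ Finset.range p, (s ^ i) (y * (algebraMap F L c)⁻¹) =
        (s ^ i) y * (algebraMap F L c)⁻¹ := by
      intro i _
      rw [map_mul, map_inv₀, AlgEquiv.commutes]
    rw [Finset.prod_congr rfl this, Finset.prod_mul_distrib, Finset.prod_const, Finset.card_range,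
      inv_pow, ← map_pow, hcp, hn']
    exact mul_inv_cancel₀ hnn)
  refine ⟨algebraMap F L e, b, hb, ?_⟩
  rw [← hb', ← map_pow, he]
  field_simp

theorem pth (p : ℕ) (hp : p.Prime) (h2 : p ≠ 2) (ζ : F) (hζ : IsPrimitiveRoot ζ p) (s : L ≃ₐ[F] L)
    (hs : ∀ x, v x < 1 → v (s x) < 1) (hsp : s ^ p = 1)
    (hfix : ∀ x : L, s x = x → ∃ f : F, algebraMap F L f = x) (hvp : v (p : L) = 1)
    (hF : ∀ f : F, v (algebraMap F L f - 1) < 1 → ∃ c : F, c ^ p = f)
    (y : L) (hy : v (y - 1) < 1) : ∃ w : L, w ^ p = y := by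
  let S : AddMonoid.End (Additive Lˣ) := MonoidHom.toAdditive (Units.map (s : L →* L))
  have hSa : ∀ (k : ℕ) (x : Additive Lˣ), (((S ^ k) x).toMul : L) = (s ^ k) ((x.toMul : Lˣ) : L) := by
    intro k
    induction k with
    | zero => intro x; rfl
    | succ k ih =>
      intro x
      rw [pow_succ', pow_succ', AlgEquiv.mul_apply, ← ih]
      rfl
  have hS : S ^ p = 1 := by
    ext x
    rw [hSa, hsp]
    rfl
  obtain ⟨w, hw⟩ := gen S p hp h2 hS {a | v (((a.toMul : Lˣ) : L) - 1) < 1} (by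
    intro a ha
    obtain ⟨d, b, hb, e⟩ := step v p hp ζ hζ s hs hsp hfix hvp hF _ ha
    have hb0 : b ≠ 0 := U_ne v hb
    have hd0 : d ≠ 0 := by
      rintro rfl
      rw [zero_pow hp.ne_zero, zero_mul] at e
      exact a.toMul.ne_zero e
    refine ⟨Additive.ofMul (Units.mk0 d hd0), Additive.ofMul (Units.mk0 b hb0), hb, ?_⟩
    apply Additive.toMul.injective
    apply Units.ext
    rw [e]
    change _ = (((Units.mk0 d hd0) ^ p * (Units.mk0 b hb0 / Units.map (s : L →* L) (Units.mk0 b hb0)) : Lˣ) : L)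
    push_cast
    rfl) (Additive.ofMul (Units.mk0 y (U_ne v hy))) hy
  refine ⟨((w.toMul : Lˣ) : L), ?_⟩
  have := congrArg (fun a : Additive Lˣ => ((a.toMul : Lˣ) : L)) hw
  exact this.symm

end main

/-- JOB EP-UP -/
theorem t_UP : Pool.Agent.Y920.EP.S_UP := by
  intro p hp h2 F L _ _ _ _ _ hex hfin O hO O₁ hO₁ hinv
  obtain ⟨ζ, hζ⟩ := hex
  obtain ⟨h1, h0, h3⟩ := hO
  have hmem : ∀ x : F, algebraMap F L x ∈ O₁ ↔ x ∈ O := fun x => by
    rw [← hO₁]; rfl
  have hlt : ∀ x : L, O₁.valuation x < 1 ↔ x = 0 ∨ x⁻¹ ∉ O₁ := by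
    intro x
    by_cases hx : x = 0
    · simp [hx]
    · rw [O₁.valuation.val_lt_one_iff hx, ← not_le, O₁.valuation_le_one_iff]
      simp [hx]
  have hp0 : (p : L) ≠ 0 := by
    rw [← map_natCast (algebraMap F L) p]
    exact (map_ne_zero_iff _ (algebraMap F L).injective).2 h0
  have hpi : (p : L)⁻¹ ∈ O₁ := by
    rw [← map_natCast (algebraMap F L) p, ← map_inv₀, hmem]
    exact h1
  have hvp : O₁.valuation (p : L) = 1 := by
    apply le_antisymm
    · rw [O₁.valuation_le_one_iff]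
      exact natCast_mem O₁ p
    · rw [O₁.valuation.one_le_val_iff hp0, O₁.valuation_le_one_iff]
      exact hpi
  have : Fact p.Prime := ⟨hp⟩
  have hcard : Nat.card (L ≃ₐ[F] L) = p := by rw [IsGalois.card_aut_eq_finrank, hfin]
  have : IsCyclic (L ≃ₐ[F] L) := isCyclic_of_prime_card hcard
  obtain ⟨s, hs⟩ := IsCyclic.exists_generator (α := L ≃ₐ[F] L)
  have hsp : s ^ p = 1 := by rw [← hcard]; exact pow_card_eq_one'
  have hfix : ∀ x : L, s x = x → ∃ f : F, algebraMap F L f = x := by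
    intro x hx
    have : x ∈ Set.range (algebraMap F L) := (IsGalois.mem_range_algebraMap_iff_fixed x).2 (by
      intro f
      have h4 : Subgroup.zpowers s ≤ MulAction.stabilizer (L ≃ₐ[F] L) x := by
        rw [Subgroup.zpowers_le]
        exact hx
      exact h4 (hs f))
    exact this
  have hs' : ∀ x, O₁.valuation x < 1 → O₁.valuation (s x) < 1 := by
    intro x hx
    rw [hlt] at hx ⊢
    rcases hx with rfl | hx
    · left; exact map_zero s
    · right
      rw [← map_inv₀, hinv]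
      exact hx
  have hF : ∀ f : F, O₁.valuation (algebraMap F L f - 1) < 1 → ∃ c : F, c ^ p = f := by
    intro f hf
    have e : algebraMap F L f - 1 = algebraMap F L (f - 1) := by rw [map_sub, map_one]
    rw [e, hlt] at hf
    rcases hf with hf | hf
    · refine ⟨1, ?_⟩
      have : f - 1 = 0 := (map_eq_zero_iff _ (algebraMap F L).injective).1 hf
      rw [one_pow, sub_eq_zero.1 this]
    · rw [← map_inv₀, hmem] at hf
      by_cases h5 : f - 1 ∈ O
      · obtain ⟨y, hy⟩ := h3 (f - 1) h5 hf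
        exact ⟨y, by rw [hy]; ring⟩
      · exact absurd ((O.mem_or_inv_mem (f - 1)).resolve_left h5) hf
  refine ⟨hpi, hp0, ?_⟩
  intro x _ hx'
  obtain ⟨w, hw⟩ := pth O₁.valuation p hp h2 ζ hζ s hs' hsp hfix hvp hF (1 + x) (by
    rw [add_sub_cancel_left, hlt]
    exact Or.inr hx')
  exact ⟨w, hw⟩

end Pool.Agent.Y279.EP
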